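import Mathlib

/-! Evaluating rational functions at points, and a generalized Lüroth theorem. -/

namespace Pool.Agent.KS6_81.Flow

open MvPolynomial

section Ev
variable {R K k : Type} [CommRing R] [IsDomain R] [Field K] [Field k] [Algebra ℂ R] [Algebra ℂ K]
  [Algebra ℂ k] [Algebra R K] [IsScalarTower ℂ R K] [IsFractionRing R K] {e : R →ₐ[ℂ] k}

/-- `g` is regular at the point `e`, with value `c` -/
def Ev (e : R →ₐ[ℂ] k) (g : K) (c : k) : Prop :=
  ∃ a b : R, e b ≠ 0 ∧ e a = c * e b ∧ g * algebraMap R K b = algebraMap R K a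

omit [IsDomain R] [Algebra ℂ K] [IsScalarTower ℂ R K] [IsFractionRing R K] in
lemma Ev.alg (a : R) : Ev e (algebraMap R K a) (e a) := ⟨a, 1, by simp, by simp, by simp⟩

omit [IsDomain R] [IsFractionRing R K] in
lemma Ev.const (a : ℂ) : Ev e (algebraMap ℂ K a) (algebraMap ℂ k a) := by
  simpa [← IsScalarTower.algebraMap_apply] using Ev.alg (K := K) (e := e) (algebraMap ℂ R a)

omit [IsDomain R] [Algebra ℂ K] [IsScalarTower ℂ R K] [IsFractionRing R K] in
lemma Ev.add {g h : K} {c d : k} (h1 : Ev e g c) (h2 : Ev e h d) : Ev e (g + h) (c + d) := by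
  obtain ⟨a, b, e1, e2, e3⟩ := h1
  obtain ⟨a', b', e1', e2', e3'⟩ := h2
  refine ⟨a * b' + a' * b, b * b', by simp [e1, e1'], ?_, ?_⟩
  · simp only [map_add, map_mul, e2, e2']; ring
  · simp only [map_add, map_mul, ← e3, ← e3']; ring

omit [IsDomain R] [Algebra ℂ K] [IsScalarTower ℂ R K] [IsFractionRing R K] in
lemma Ev.mul {g h : K} {c d : k} (h1 : Ev e g c) (h2 : Ev e h d) : Ev e (g * h) (c * d) := by
  obtain ⟨a, b, e1, e2, e3⟩ := h1
  obtain ⟨a', b', e1', e2', e3'⟩ := h2
  refine ⟨a * a', b * b', by simp [e1, e1'], ?_, ?_⟩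
  · simp only [map_mul, e2, e2']; ring
  · simp only [map_mul, ← e3, ← e3']; ring

omit [IsDomain R] [Algebra ℂ K] [IsScalarTower ℂ R K] in
lemma Ev.uniq {g : K} {c d : k} (h1 : Ev e g c) (h2 : Ev e g d) : c = d := by
  obtain ⟨a, b, e1, e2, e3⟩ := h1
  obtain ⟨a', b', e1', e2', e3'⟩ := h2
  have h : a * b' = a' * b := IsFractionRing.injective R K (by
    simp only [map_mul, ← e3, ← e3']; ring)
  have h' := congrArg e h
  rw [map_mul, map_mul, e2, e2'] at h'
  exact mul_right_cancel₀ (mul_ne_zero e1 e1') (by linear_combination h')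

omit [IsDomain R] [Algebra ℂ K] [IsScalarTower ℂ R K] in
lemma Ev.ne {g : K} {c : k} (h : Ev e g c) (hc : c ≠ 0) : g ≠ 0 := by
  rintro rfl
  exact hc (h.uniq (by simpa using Ev.alg (K := K) (e := e) 0))

omit [IsDomain R] [Algebra ℂ K] [IsScalarTower ℂ R K] in
lemma Ev.inv {g : K} {c : k} (h : Ev e g c) (hc : c ≠ 0) : Ev e g⁻¹ c⁻¹ := by
  have h0 := h.ne hc
  obtain ⟨a, b, e1, e2, e3⟩ := h
  exact ⟨b, a, by simp [e2, hc, e1], by rw [e2]; field_simp, by rw [← e3]; field_simp⟩

omit [IsDomain R] [Algebra ℂ K] [IsScalarTower ℂ R K] in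
lemma Ev.div {g h : K} {c d : k} (h1 : Ev e g c) (h2 : Ev e h d) (hd : d ≠ 0) :
    Ev e (g / h) (c / d) := by
  simpa [div_eq_mul_inv] using h1.mul (h2.inv hd)

omit [IsDomain R] [Algebra ℂ K] [IsScalarTower ℂ R K] [IsFractionRing R K] in
lemma Ev.pow {g : K} {c : k} (h : Ev e g c) (n : ℕ) : Ev e (g ^ n) (c ^ n) := by
  induction n with
  | zero => simpa using Ev.alg (K := K) (e := e) 1
  | succ n ih => simpa [pow_succ] using ih.mul h

omit [IsDomain R] [Algebra ℂ K] [IsScalarTower ℂ R K] in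
lemma Ev.zpow {g : K} {c : k} (h : Ev e g c) (hc : c ≠ 0) (n : ℤ) : Ev e (g ^ n) (c ^ n) := by
  rcases n with n | n
  · simpa using h.pow n
  · simpa using (h.pow (n + 1)).inv (pow_ne_zero _ hc)

omit [IsDomain R] [IsFractionRing R K] in
lemma Ev.aeval {σ : Type} {g : σ → K} {c : σ → k} (h : ∀ i, Ev e (g i) (c i))
    (p : MvPolynomial σ ℂ) : Ev e (aeval g p) (aeval c p) := by
  induction p using MvPolynomial.induction_on with
  | C a => simpa using Ev.const a
  | add p q hp hq => simpa using hp.add hq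
  | mul_X p i hp => simpa using hp.mul (h i)

end Ev

/-- a rational map, evaluated at a point of any field -/
noncomputable def rat {k : Type} [Field k] [Algebra ℂ k] (P : Fin 3 → MvPolynomial (Fin 3) ℂ)
    (Q : MvPolynomial (Fin 3) ℂ) (p : Fin 3 → k) : Fin 3 → k := fun i => aeval p (P i) / aeval p Q

lemma Ev.rat {R K k : Type} [CommRing R] [Field K] [Field k] [Algebra ℂ R] [Algebra ℂ K]
    [Algebra ℂ k] [Algebra R K] [IsScalarTower ℂ R K] [IsFractionRing R K] {e : R →ₐ[ℂ] k}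
    (P : Fin 3 → MvPolynomial (Fin 3) ℂ) {Q : MvPolynomial (Fin 3) ℂ} {g : Fin 3 → K}
    {c : Fin 3 → k} (h : ∀ i, Ev e (g i) (c i)) (hQ : MvPolynomial.aeval c Q ≠ 0) (i : Fin 3) :
    Ev e (rat P Q g i) (rat P Q c i) := (Ev.aeval h _).div (Ev.aeval h _) hQ

lemma map_rat {k k' : Type} [Field k] [Algebra ℂ k] [Field k'] [Algebra ℂ k'] (h : k →ₐ[ℂ] k')
    (P : Fin 3 → MvPolynomial (Fin 3) ℂ) (Q : MvPolynomial (Fin 3) ℂ) (p : Fin 3 → k) (i : Fin 3) :
    h (rat P Q p i) = rat P Q (fun j => h (p j)) i := by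
  simp only [rat, map_div₀, ← comp_aeval_apply]

lemma open_zero {σ : Type} [Finite σ] {U : Set (σ → ℂ)} (hU : IsOpen U) (h0 : U.Nonempty)
    {p : MvPolynomial σ ℂ} (h : ∀ x ∈ U, eval x p = 0) : p = 0 := by
  obtain ⟨x, hx⟩ := h0
  obtain ⟨u, h1, h2⟩ := isOpen_pi_iff'.1 hU x hx
  exact funext_set u (fun i => infinite_of_mem_nhds (x i) ((h1 i).1.mem_nhds (h1 i).2))
    fun y hy => by simpa using h y (h2 hy)

lemma open_zero' {σ K : Type} [Finite σ] [Field K] [Algebra (MvPolynomial σ ℂ) K]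
    [IsFractionRing (MvPolynomial σ ℂ) K] {U : Set (σ → ℂ)} (hU : IsOpen U) (h0 : U.Nonempty)
    {g h : K} (H : ∀ x ∈ U, ∃ c, Ev (aeval x : MvPolynomial σ ℂ →ₐ[ℂ] ℂ) g c ∧
      Ev (aeval x : MvPolynomial σ ℂ →ₐ[ℂ] ℂ) h c) : g = h := by
  obtain ⟨a, b, hb, e⟩ := IsFractionRing.div_surjective (A := MvPolynomial σ ℂ) (g - h)
  have hb' := IsFractionRing.to_map_ne_zero_of_mem_nonZeroDivisors (K := K) hb
  have : a = 0 := open_zero hU h0 fun x hx => by
    obtain ⟨c, h1, h2⟩ := H x hx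
    have h3 := (h1.add ((Ev.alg (-1)).mul h2)).mul (Ev.alg b)
    rw [show (g + algebraMap (MvPolynomial σ ℂ) K (-1) * h) * algebraMap _ K b = algebraMap _ K a by
      rw [map_neg, map_one, neg_one_mul, ← sub_eq_add_neg, ← e, div_mul_cancel₀ _ hb']] at h3
    simpa using (Ev.alg a).uniq h3
  rw [← sub_eq_zero, ← e, this, map_zero, zero_div]

abbrev S := MvPolynomial (Fin 3) ℂ

structure Pk where
  F : Type
  [a : Field F]
  [b : Algebra S F]
  [c : IsFractionRing S F]
  [d : Algebra ℂ F]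
  [e : IsScalarTower ℂ S F]

noncomputable def pk : Pk := Classical.choice ⟨⟨FractionRing S⟩⟩

/-- the field of rational functions in three variables -/
def F : Type := pk.F

noncomputable instance : Field F := pk.a
noncomputable instance : Algebra S F := pk.b
instance : IsFractionRing S F := pk.c
noncomputable instance : Algebra ℂ F := pk.d
instance : IsScalarTower ℂ S F := pk.e
instance : CharZero F := charZero_of_injective_algebraMap (algebraMap ℂ F).injective

lemma generic (s : List F) (hs : ∀ g ∈ s, g ≠ 0) : ∃ U : Set (Fin 3 → ℂ), IsOpen U ∧ U.Nonempty ∧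
    ∀ x ∈ U, ∀ g ∈ s, ∀ c, Ev (aeval x : S →ₐ[ℂ] ℂ) g c → c ≠ 0 := by
  have h : ∃ D : S, D ≠ 0 ∧ ∀ x, eval x D ≠ 0 → ∀ g ∈ s, ∀ c,
      Ev (aeval x : S →ₐ[ℂ] ℂ) g c → c ≠ 0 := by
    induction s with
    | nil => exact ⟨1, one_ne_zero, by simp⟩
    | cons g s ih =>
      obtain ⟨D, h1, h2⟩ := ih fun g hg => hs g (by simp [hg])
      obtain ⟨a, b, hb, e⟩ := IsFractionRing.div_surjective (A := S) g
      have hb' := IsFractionRing.to_map_ne_zero_of_mem_nonZeroDivisors (K := F) hb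
      have ha : a ≠ 0 := fun h => hs g (by simp) (by simp [← e, h])
      refine ⟨D * a, mul_ne_zero h1 ha, fun x hx g' hg' c hc h0 => ?_⟩
      rw [map_mul, mul_ne_zero_iff] at hx
      rcases List.mem_cons.1 hg' with rfl | hg'
      · have h3 := hc.mul (Ev.alg b)
        rw [← e, div_mul_cancel₀ _ hb', h0, zero_mul] at h3
        exact hx.2 ((Ev.alg a).uniq h3)
      · exact h2 x hx.1 g' hg' c hc h0
  obtain ⟨D, h1, h2⟩ := h
  refine ⟨{x | eval x D ≠ 0}, isOpen_ne_fun (continuous_eval D) continuous_const, ?_, h2⟩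
  by_contra h
  exact h1 (MvPolynomial.funext fun x => by_contra fun hx => h ⟨x, by simpa using hx⟩)

lemma trdeg_F : Algebra.trdeg ℂ F = 3 := by
  have := IsLocalization.isAlgebraic F (nonZeroDivisors S)
  rw [← trdeg_add_eq ℂ S (A := F), trdeg_eq_zero (R := S), MvPolynomial.trdeg_of_isDomain]
  simp

theorem luroth (K : IntermediateField ℂ F) (hK : Algebra.trdeg ℂ K ≤ 1) :
    ∃ t ∈ K, K ≤ IntermediateField.adjoin ℂ {t} := by
  by_cases h0 : K ≤ ⊥
  · exact ⟨0, zero_mem _, h0.trans bot_le⟩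
  obtain ⟨g, hg, hg0⟩ := SetLike.not_le_iff_exists.1 h0
  obtain ⟨a, b, hb, rfl⟩ := IsFractionRing.div_surjective (A := S) g
  have hb' := IsFractionRing.to_map_ne_zero_of_mem_nonZeroDivisors (K := F) hb
  obtain ⟨p, hp⟩ : ∃ p, eval p b ≠ 0 := by
    by_contra! h
    exact nonZeroDivisors.ne_zero hb (MvPolynomial.funext fun x => by simp [h])
  obtain ⟨q, hq⟩ : ∃ q, eval q (b * (C (eval p b) * a - C (eval p a) * b)) ≠ 0 := by
    by_contra! h
    have h1 := (mul_eq_zero.1 (MvPolynomial.funext fun x => (h x).trans (map_zero _).symm)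
      ).resolve_left (nonZeroDivisors.ne_zero hb)
    refine hg0 (IntermediateField.mem_bot.2 ⟨eval p a / eval p b, ?_⟩)
    have h2 := congrArg (algebraMap S F) (sub_eq_zero.1 h1)
    have h3 (c : ℂ) : algebraMap S F (C c) = algebraMap ℂ F c :=
      (IsScalarTower.algebraMap_apply ℂ S F c).symm
    rw [map_mul, map_mul, h3, h3] at h2
    rw [map_div₀, div_eq_div_iff (by simpa using hp) hb']
    linear_combination -h2
  let e : S →ₐ[ℂ] Polynomial ℂ :=
    aeval fun i => Polynomial.C (p i) + Polynomial.C (q i - p i) * Polynomial.X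
  have e0 (f : S) : (e f).eval 0 = eval p f :=
    DFunLike.congr_fun (show (Polynomial.aeval 0).comp e = aeval p from
      algHom_ext fun i => by simp [e]) f
  have e1 (f : S) : (e f).eval 1 = eval q f :=
    DFunLike.congr_fun (show (Polynomial.aeval 1).comp e = aeval q from
      algHom_ext fun i => by simp [e]) f
  let e' : S →ₐ[ℂ] RatFunc ℂ := (IsScalarTower.toAlgHom ℂ (Polynomial ℂ) (RatFunc ℂ)).comp e
  have hP : (RingHom.ker e').IsPrime := RingHom.ker_isPrime _
  let O := Localization.subalgebra.ofField F (RingHom.ker e').primeCompl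
    (RingHom.ker e').primeCompl_le_nonZeroDivisors
  have hO : IsIntegrallyClosed O := isIntegrallyClosed_of_isLocalization O
    (RingHom.ker e').primeCompl (RingHom.ker e').primeCompl_le_nonZeroDivisors
  have hmem (f : F) : f ∈ O ↔ ∃ c, Ev e' f c := by
    constructor
    · rintro ⟨a, s, hs, rfl⟩
      exact ⟨_, (Ev.alg a).mul ((Ev.alg s).inv hs)⟩
    · rintro ⟨c, a, s, h1, -, h2⟩
      exact ⟨a, s, h1, by rw [← h2, mul_inv_cancel_right₀ ((Ev.alg s).ne h1)]⟩
  have hb1 : e' b ≠ 0 := fun h => hp (by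
    rw [← e0, show e b = 0 from
      (map_eq_zero_iff _ (IsFractionRing.injective (Polynomial ℂ) (RatFunc ℂ))).1 h,
      Polynomial.eval_zero])
  have hγ : Transcendental ℂ (e' a / e' b) := RatFunc.transcendental_of_ne_C _ (by
    rintro ⟨c, hc⟩
    rw [div_eq_iff hb1] at hc
    have h1 : e a = Polynomial.C c * e b := IsFractionRing.injective _ (RatFunc ℂ) (by
      rw [map_mul]; exact hc)
    have h2 := e0 a
    have h3 := e1 a
    rw [h1, Polynomial.eval_mul, Polynomial.eval_C] at h2 h3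
    rw [e0] at h2
    rw [e1] at h3
    apply hq
    simp only [map_mul, map_sub, eval_C, ← h2, ← h3]
    ring)
  let g : K := ⟨_, hg⟩
  have h1 (r : Polynomial ℂ) :
      Ev e' ((Polynomial.aeval g r : K) : F) (Polynomial.aeval (e' a / e' b) r) := by
    induction r using Polynomial.induction_on' with
    | add p q hp hq => simpa using hp.add hq
    | monomial n c =>
      simpa [Polynomial.aeval_monomial] using
        (Ev.const c).mul (((Ev.alg a).div (Ev.alg b) hb1).pow n)
  have h2 : Transcendental ℂ g := by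
    rintro ⟨r, hr, h⟩
    exact (h1 r).ne (fun h' => hγ ⟨r, hr, h'⟩) (by simp [h])
  have h3 := ((algebraicIndependent_unique_type_iff (x := fun _ : Unit => g)).2
    h2).isTranscendenceBasis_of_lift_trdeg_le_of_finite (by simpa using hK)
  have h4 (y : Algebra.adjoin ℂ (Set.range fun _ : Unit => g)) :
      ∃ r : Polynomial ℂ, Polynomial.aeval g r = y := by
    obtain ⟨y, hy⟩ := y
    have := hy
    rwa [Set.range_const, Algebra.adjoin_singleton_eq_range_aeval] at this
  have h5 (k : K) : ∃ c, Ev e' (k : F) c := by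
    obtain ⟨y, hy, h5⟩ := (h3.isAlgebraic.1 k).exists_integral_multiple
    let j : Algebra.adjoin ℂ (Set.range fun _ : Unit => g) →+* O :=
      (K.val.toRingHom.comp (Subalgebra.val _).toRingHom).codRestrict O fun y => by
        obtain ⟨r, hr⟩ := h4 y
        exact (hmem _).2 ⟨_, (congrArg Subtype.val hr : _ = (y.1 : F)) ▸ h1 r⟩
    obtain ⟨z, hz⟩ := IsIntegrallyClosed.isIntegral_iff.1
      (h5.map_of_comp_eq j K.val.toRingHom rfl)
    obtain ⟨c, hc⟩ := (hmem _).1 z.2
    obtain ⟨r, hr⟩ := h4 y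
    have h6 : Polynomial.aeval (e' a / e' b) r ≠ 0 := fun h =>
      hγ ⟨r, fun h' => hy (Subtype.ext (by simp [← hr, h'])), h⟩
    have h7 : (z : F) / (Polynomial.aeval g r : K) = k := by
      rw [div_eq_iff ((h1 r).ne h6), hr, mul_comm]
      exact hz
    exact ⟨_, h7 ▸ hc.div (h1 r) h6⟩
  choose χ hχ using h5
  let χ' : K →ₐ[ℂ] RatFunc ℂ :=
    { toFun := χ
      map_one' := (hχ 1).uniq (by simpa using Ev.alg (K := F) (e := e') 1)
      map_mul' := fun x y => (hχ _).uniq ((hχ x).mul (hχ y))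
      map_zero' := (hχ 0).uniq (by simpa using Ev.alg (K := F) (e := e') 0)
      map_add' := fun x y => (hχ _).uniq ((hχ x).add (hχ y))
      commutes' := fun c => (hχ _).uniq (Ev.const c) }
  obtain ⟨t, ht⟩ : RatFunc.Luroth.generator χ'.fieldRange ∈ χ'.fieldRange :=
    RatFunc.Luroth.generator_mem
  refine ⟨t, t.2, fun k hk => ?_⟩
  have h6 : χ' ⟨k, hk⟩ ∈ (IntermediateField.adjoin ℂ {t}).map χ' := by
    rw [IntermediateField.adjoin_map, Set.image_singleton, show χ' t = _ from ht,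
      ← RatFunc.Luroth.eq_adjoin_generator]
    exact ⟨_, rfl⟩
  obtain ⟨k', h7, h8⟩ := h6
  have h9 : k ∈ (IntermediateField.adjoin ℂ {t}).map K.val :=
    ⟨k', h7, congrArg Subtype.val (χ'.injective h8)⟩
  rwa [IntermediateField.adjoin_map, Set.image_singleton] at h9

end Pool.Agent.KS6_81.Flow
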