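import Pool.Agent.KS6_81.Flow.A

/-! Birational actions of the affine group on three-space. -/

namespace Pool.Agent.KS6_81.Flow

open Polynomial

noncomputable def x (i : Fin 3) : F := algebraMap S F (MvPolynomial.X i)

lemma aeval_x (a : S) : MvPolynomial.aeval x a = algebraMap S F a :=
  DFunLike.congr_fun (show MvPolynomial.aeval x = IsScalarTower.toAlgHom ℂ S F from
    MvPolynomial.algHom_ext fun i => by simp [x]) a

lemma alg_C (c : ℂ) : algebraMap S F (MvPolynomial.C c) = algebraMap ℂ F c :=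
  (IsScalarTower.algebraMap_apply ℂ S F c).symm

lemma x_ne (i : Fin 3) : x i ≠ 0 := by simp [x]

noncomputable def mk (y : Fin 3 → F) (h : Function.Injective (MvPolynomial.aeval y : S →ₐ[ℂ] F)) :
    F →ₐ[ℂ] F := IsFractionRing.liftAlgHom h

lemma mk_x (y : Fin 3 → F) (h) (i : Fin 3) : mk y h (x i) = y i := by simp [mk, x]

lemma hom_alg (h : F →ₐ[ℂ] F) (a : S) :
    h (algebraMap S F a) = MvPolynomial.aeval (fun i => h (x i)) a := by
  rw [← aeval_x, MvPolynomial.comp_aeval_apply]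

lemma hom_ext {g h : F →ₐ[ℂ] F} (H : ∀ i, g (x i) = h (x i)) : g = h :=
  AlgHom.ext fun f => by
    obtain ⟨a, b, -, rfl⟩ := IsFractionRing.div_surjective (A := S) f
    simp only [map_div₀, hom_alg, H]

lemma aeval_mem {E : IntermediateField ℂ F} {y : Fin 3 → F} (h : ∀ i, y i ∈ E) (a : S) :
    MvPolynomial.aeval y a ∈ E := by
  induction a using MvPolynomial.induction_on with
  | C a => simp
  | add p q hp hq => simpa using add_mem hp hq
  | mul_X p i hp => simpa using mul_mem hp (h i)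

lemma top_of_x {E : IntermediateField ℂ F} (h : ∀ i, x i ∈ E) : E = ⊤ :=
  eq_top_iff.2 fun f _ => by
    obtain ⟨a, b, -, rfl⟩ := IsFractionRing.div_surjective (A := S) f
    rw [← aeval_x, ← aeval_x]
    exact div_mem (aeval_mem h a) (aeval_mem h b)

noncomputable def ι (l : ℂˣ) : F := algebraMap ℂ F l

lemma ι_ne (l : ℂˣ) : ι l ≠ 0 := by simp [ι]

lemma ι_mul (l s : ℂˣ) : ι (l * s) = ι l * ι s := by simp [ι]

lemma map_ι (h : F →ₐ[ℂ] F) (l : ℂˣ) : h (ι l) = ι l := h.commutes _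

lemma δ_inj (l : ℂˣ) :
    Function.Injective (MvPolynomial.aeval fun i => ι l * x i : S →ₐ[ℂ] F) := by
  have h1 : (MvPolynomial.aeval fun i => ι l * x i : S →ₐ[ℂ] F) = (IsScalarTower.toAlgHom ℂ S F).comp
      (MvPolynomial.aeval fun i => (l : ℂ) • MvPolynomial.X i) :=
    MvPolynomial.algHom_ext fun i => by simp [x, ι, Algebra.smul_def, alg_C]
  have h2 : (MvPolynomial.aeval fun i => (l : ℂ)⁻¹ • MvPolynomial.X i : S →ₐ[ℂ] S).comp
      (MvPolynomial.aeval fun i => (l : ℂ) • MvPolynomial.X i) = AlgHom.id ℂ S :=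
    MvPolynomial.algHom_ext fun i => by simp [smul_smul]
  intro a b h
  rw [h1, AlgHom.comp_apply, AlgHom.comp_apply] at h
  have h3 := congrArg (MvPolynomial.aeval fun i => (l : ℂ)⁻¹ • MvPolynomial.X i : S →ₐ[ℂ] S)
    (IsFractionRing.injective S F h)
  rwa [← AlgHom.comp_apply, ← AlgHom.comp_apply, h2] at h3

noncomputable def δ (l : ℂˣ) : F →ₐ[ℂ] F := mk (fun i => ι l * x i) (δ_inj l)

lemma δ_x (l : ℂˣ) (i : Fin 3) : δ l (x i) = ι l * x i := mk_x _ _ i

lemma δ_δ (l s : ℂˣ) (f : F) : δ l (δ s f) = δ (l * s) f :=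
  DFunLike.congr_fun (show (δ l).comp (δ s) = δ (l * s) from hom_ext fun i => by
    simp only [AlgHom.comp_apply, δ_x, map_mul, map_ι, ι_mul]; ring) f

lemma δ_one (f : F) : δ 1 f = f :=
  DFunLike.congr_fun (show δ 1 = AlgHom.id ℂ F from hom_ext fun i => by simp [δ_x, ι]) f

def Hom (n : ℤ) (f : F) : Prop := ∀ l, δ l f = ι l ^ n * f

lemma Hom.mul {m n : ℤ} {f g : F} (hf : Hom m f) (hg : Hom n g) : Hom (m + n) (f * g) :=
  fun l => by rw [map_mul, hf, hg, zpow_add₀ (ι_ne l)]; ring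

lemma Hom.zpow {m : ℤ} {f : F} (hf : Hom m f) (n : ℤ) : Hom (m * n) (f ^ n) :=
  fun l => by rw [map_zpow₀, hf, mul_zpow, zpow_mul]

lemma Hom.div {m n : ℤ} {f g : F} (hf : Hom m f) (hg : Hom n g) : Hom (m - n) (f / g) := by
  simpa [div_eq_mul_inv, sub_eq_add_neg] using hf.mul (hg.zpow (-1))

lemma hom_x (i : Fin 3) : Hom 1 (x i) := fun l => by simp [δ_x]

noncomputable def u (k : ℕ) : ℂˣ := Units.mk0 _ (Nat.cast_add_one_ne_zero k)

lemma hu (k : ℕ) : ι (u k) = (k + 1 : ℕ) := by simp [ι, u]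

lemma exists_ne {V : F[X]} (hV : V ≠ 0) {c : F} (hc : c ≠ 0) : ∃ l, V.eval (ι l * c) ≠ 0 := by
  by_contra! h
  refine hV (eq_zero_of_infinite_isRoot V ((Set.infinite_range_of_injective
    (f := fun l => ι (u l) * c) fun l s e => ?_).mono (by rintro _ ⟨l, rfl⟩; exact h _)))
  simpa [hu] using mul_right_cancel₀ hc e

lemma poly_ext {U V D : F[X]} (hD : D ≠ 0)
    (h : ∀ s, D.eval (ι s) ≠ 0 → U.eval (ι s) = V.eval (ι s)) : U = V := by
  by_contra h0
  obtain ⟨l, hl⟩ := exists_ne (mul_ne_zero (sub_ne_zero.2 h0) hD) one_ne_zero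
  rw [mul_one, eval_mul, mul_ne_zero_iff, eval_sub] at hl
  exact hl.1 (sub_eq_zero.2 (h l hl.2))

lemma deg0 {f : F} (hf : Hom 0 f) : f ∈ IntermediateField.adjoin ℂ {x 0 / x 2, x 1 / x 2} := by
  obtain ⟨a, b, hb, rfl⟩ := IsFractionRing.div_surjective (A := S) f
  have hb' := IsFractionRing.to_map_ne_zero_of_mem_nonZeroDivisors (K := F) hb
  have h1 (p : S) (y : F) : (MvPolynomial.aeval (fun i => C (x i) * X) p : F[X]).eval y =
      MvPolynomial.aeval (fun i => y * x i) p := by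
    induction p using MvPolynomial.induction_on with
    | C a => simp
    | add p q hp hq => simp [hp, hq]
    | mul_X p i hp => simp [hp, mul_comm y]
  have h2 : (MvPolynomial.aeval (fun i => C (x i) * X) a : F[X]) =
      C (algebraMap S F a / algebraMap S F b) * MvPolynomial.aeval (fun i => C (x i) * X) b :=
    poly_ext one_ne_zero fun s _ => by
      have := hf s
      rw [map_div₀, hom_alg, hom_alg, zpow_zero, one_mul] at this
      rw [eval_mul, eval_C, h1, h1, ← this]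
      simp only [δ_x]
      rw [div_mul_cancel₀]
      simpa only [hom_alg, δ_x] using (_root_.map_ne_zero (δ s)).2 hb'
  obtain ⟨l, hl⟩ := exists_ne (V := MvPolynomial.aeval (fun i => C (x i) * X) b) (fun h => hb' (by
    simpa [h, aeval_x] using (h1 b 1).symm)) (inv_ne_zero (x_ne 2))
  have h3 := congrArg (eval (ι l * (x 2)⁻¹)) h2
  rw [eval_mul, eval_C, ← div_eq_iff hl, h1, h1] at h3
  have h4 (i : Fin 3) :
      ι l * (x 2)⁻¹ * x i ∈ IntermediateField.adjoin ℂ {x 0 / x 2, x 1 / x 2} := by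
    rw [mul_assoc, mul_comm _ (x i), ← div_eq_mul_inv]
    refine mul_mem (IntermediateField.algebraMap_mem _ _) ?_
    fin_cases i
    · exact IntermediateField.subset_adjoin _ _ (by simp)
    · exact IntermediateField.subset_adjoin _ _ (by simp)
    · simp [x_ne]
  exact h3 ▸ div_mem (aeval_mem h4 a) (aeval_mem h4 b)

lemma frac_uniq {A B A' B' : F[X]} (h1 : IsCoprime A B) (h2 : IsCoprime A' B') (h3 : B.Monic)
    (h4 : B'.Monic) (h : A * B' = A' * B) : A = A' ∧ B = B' := by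
  have e : B = B' := eq_of_monic_of_associated h3 h4 (associated_of_dvd_dvd
    (h1.symm.dvd_of_dvd_mul_left ⟨A', by rw [h, mul_comm]⟩)
    (h2.symm.dvd_of_dvd_mul_left ⟨A, by rw [← h, mul_comm]⟩))
  exact ⟨mul_right_cancel₀ h4.ne_zero (by rw [h, e]), e⟩

def HP (e : ℤ) (A : F[X]) : Prop :=
  ∀ l, A.map (δ l : F →+* F) = C (ι l ^ e) * A.comp (C (ι l) * X)

lemma HP.coeff {e : ℤ} {A : F[X]} (h : HP e A) (j : ℕ) : Hom (e + j) (A.coeff j) := fun l => by
  have := congrArg (·.coeff j) (h l)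
  simp only [coeff_map, coeff_C_mul, comp_C_mul_X_coeff, RingHom.coe_coe] at this
  rw [this, zpow_add₀ (ι_ne l), zpow_natCast]
  ring

lemma HP.taylor {e : ℤ} {A : F[X]} (h : HP e A) {τ : F} (hτ : Hom (-1) τ) :
    HP e (taylor (-τ) A) := fun l => by
  rw [map_taylor, h, taylor_mul, taylor_C, taylor_apply, taylor_apply, comp_assoc, comp_assoc]
  congr 2
  simp only [RingHom.coe_coe, map_neg, hτ l, mul_comp, C_comp, X_comp, add_comp, neg_comp, mul_add,
    zpow_neg_one]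
  rw [mul_neg, ← C_mul, mul_inv_cancel_left₀ (ι_ne l)]

lemma ev_map (h : F →ₐ[ℂ] F) (A : F[X]) (s : ℂˣ) :
    (A.map (h : F →+* F)).eval (ι s) = h (A.eval (ι s)) := by
  rw [eval_map, ← map_ι h s]
  exact (eval₂_at_apply (h : F →+* F) _).trans (by rw [map_ι]; rfl)

variable {φ : ℂˣ → F →ₐ[ℂ] F}

def Rat (φ : ℂˣ → F →ₐ[ℂ] F) (f : F) : Prop :=
  ∃ A B : F[X], B ≠ 0 ∧ ∀ r, φ r f * B.eval (ι r) = A.eval (ι r)

lemma Rat.div {f g : F} (hf : Rat φ f) (hg : Rat φ g) (h0 : g ≠ 0) : Rat φ (f / g) := by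
  obtain ⟨A, B, h1, h2⟩ := hf
  obtain ⟨A', B', h1', h2'⟩ := hg
  have h3 (r) : φ r g ≠ 0 := (_root_.map_ne_zero _).2 h0
  refine ⟨A * B', B * A', mul_ne_zero h1 fun h => ?_, fun r => ?_⟩
  · obtain ⟨r, hr⟩ := exists_ne h1' one_ne_zero
    exact mul_ne_zero (h3 r) (by simpa using hr) (by simp [h2', h])
  · rw [eval_mul, eval_mul, ← h2, ← h2', map_div₀]
    field_simp [h3 r]

variable (h1 : ∀ r s t : ℂˣ, (t : ℂ) = r + s → ∀ f, φ r (φ s f) = φ t f)
  (h2 : ∀ l s f, δ l (φ s f) = φ (l * s) (δ l f))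
include h1 h2

lemma key {f : F} {n : ℤ} (hf : Hom n f) (hr : Rat φ f) : ∃ A B : F[X], B.Monic ∧
    (∀ r, A.map (φ r : F →+* F) = taylor (ι r) A ∧ B.map (φ r : F →+* F) = taylor (ι r) B) ∧
    HP (n - B.natDegree) A ∧ HP (-B.natDegree) B ∧ B.eval 0 ≠ 0 ∧ f * B.eval 0 = A.eval 0 := by
  obtain ⟨A', D, hD, h⟩ := hr
  set g : RatFunc F := algebraMap F[X] _ A' / algebraMap F[X] _ D with hg
  have e1 := (RatFunc.num_mul_eq_mul_denom_iff hD).2 hg
  have hc := g.isCoprime_num_denom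
  have hm := g.monic_denom
  generalize g.num = A at *
  generalize g.denom = B at *
  have e2 (r) (hr : D.eval (ι r) ≠ 0) : φ r f * B.eval (ι r) = A.eval (ι r) := by
    have := congrArg (eval (ι r)) e1
    rw [eval_mul, eval_mul, ← h] at this
    exact mul_right_cancel₀ hr (by linear_combination -this)
  have e3 (r) : A.map (φ r : F →+* F) = taylor (ι r) A ∧ B.map (φ r : F →+* F) = taylor (ι r) B := by
    refine frac_uniq (by simpa using hc.map (mapRingHom (φ r : F →+* F)))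
      (by simpa [taylor_apply] using hc.map (compRingHom (X + C (ι r)))) (hm.map _)
      (by rw [Monic, leadingCoeff_taylor, hm]) (poly_ext (D := D * taylor (ι r) D * (X + C (ι r)))
        (mul_ne_zero (mul_ne_zero hD (by simpa using hD)) (X_add_C_ne_zero _)) fun s hs => ?_)
    simp only [eval_mul, mul_ne_zero_iff, taylor_eval, eval_add, eval_X, eval_C] at hs
    have h0 : (r : ℂ) + s ≠ 0 := fun h0 => hs.2 (by rw [ι, ι, ← map_add, add_comm, h0, map_zero])
    have h3 : ι (Units.mk0 _ h0) = ι s + ι r := by simp [ι, add_comm]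
    have h4 := e2 (Units.mk0 _ h0) (h3 ▸ hs.1.2)
    have h5 := congrArg (φ r) (e2 s hs.1.1)
    rw [map_mul, h1 r s (Units.mk0 _ h0) rfl] at h5
    rw [eval_mul, eval_mul, taylor_eval, taylor_eval, ev_map, ev_map, ← h3, ← h4, ← h5]
    ring
  have e4 (l) : A.map (δ l : F →+* F) = C (ι l ^ (n - B.natDegree)) * A.comp (C (ι l) * X) ∧
      B.map (δ l : F →+* F) = C (ι l ^ (-B.natDegree : ℤ)) * B.comp (C (ι l) * X) := by
    have hu (e : ℤ) : IsUnit (C (ι l ^ e)) := isUnit_C.2 (zpow_ne_zero e (ι_ne l)).isUnit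
    refine frac_uniq (by simpa using hc.map (mapRingHom (δ l : F →+* F))) ?_ (hm.map _) ?_
      (poly_ext (D := D * D.comp (C (ι l) * X)) (mul_ne_zero hD fun h0 => ?_) fun s hs => ?_)
    · rw [isCoprime_mul_unit_left_left (hu _), isCoprime_mul_unit_left_right (hu _)]
      simpa using hc.map (compRingHom (C (ι l) * X))
    · refine monic_of_natDegree_le_of_coeff_eq_one B.natDegree
        (natDegree_le_iff_coeff_eq_zero.2 fun N hN => ?_) ?_
      · simp [coeff_eq_zero_of_natDegree_lt hN]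
      · simp [hm.coeff_natDegree, ι_ne]
    · exact hD (Polynomial.ext fun k => by simpa [ι_ne] using congrArg (·.coeff k) h0)
    · simp only [eval_mul, mul_ne_zero_iff, eval_comp, eval_X, eval_C, ← ι_mul] at hs ⊢
      have h5 := congrArg (δ l) (e2 s hs.1)
      rw [map_mul, h2, hf, map_mul, map_zpow₀, map_ι] at h5
      rw [ev_map, ev_map, ← h5, ← e2 _ hs.2, sub_eq_add_neg, zpow_add₀ (ι_ne l)]
      ring
  obtain ⟨r, hr⟩ := exists_ne (mul_ne_zero hD hm.ne_zero) one_ne_zero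
  rw [mul_one, eval_mul, mul_ne_zero_iff] at hr
  have e5 (p : F[X]) (hp : p.map (φ r : F →+* F) = taylor (ι r) p) :
      p.eval (ι r) = φ r (p.eval 0) := by
    simpa [← coeff_zero_eq_eval_zero] using congrArg (·.coeff 0) hp.symm
  refine ⟨A, B, hm, e3, fun l => (e4 l).1, fun l => (e4 l).2, fun h0 => hr.2 ?_, (φ r).injective ?_⟩
  · rw [e5 B (e3 r).2, h0, map_zero]
  · simpa [← e5 B (e3 r).2, ← e5 A (e3 r).1] using e2 r hr.1

omit h1 h2 in
lemma slice {A : F[X]} {e : ℤ} (h0 : 0 < A.natDegree)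
    (h : ∀ r, A.map (φ r : F →+* F) = taylor (ι r) A) (hA : HP e A) :
    ∃ τ, Hom (-1) τ ∧ ∀ r, φ r τ = τ + ι r := by
  obtain ⟨c, hc⟩ : ∃ c, A.natDegree = c + 1 := ⟨_, (Nat.succ_pred_eq_of_pos h0).symm⟩
  have e0 : A.coeff (c + 1) ≠ 0 := hc ▸ leadingCoeff_ne_zero.2 (ne_zero_of_natDegree_gt h0)
  have e1 : ((c : F) + 1) ≠ 0 := Nat.cast_add_one_ne_zero c
  refine ⟨A.coeff c / A.coeff (c + 1) / (c + 1), fun l => ?_, fun r => ?_⟩
  · rw [map_div₀, (hA.coeff c).div (hA.coeff (c + 1)) l]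
    simp [mul_div_assoc]
  · have e2 := congrArg (·.coeff (c + 1)) (h r)
    have e3 := congrArg (·.coeff c) (h r)
    simp only [coeff_map, RingHom.coe_coe] at e2 e3
    rw [← hc, coeff_taylor_natDegree, leadingCoeff, hc] at e2
    rw [taylor_coeff, eq_X_add_C_of_natDegree_le_one
      ((natDegree_hasseDeriv_le A c).trans (by omega))] at e3
    simp only [hasseDeriv_coeff, add_comm 1 c, Nat.choose_succ_self_right, zero_add,
      Nat.choose_self, eval_add, eval_mul, eval_C, eval_X, Nat.cast_one, one_mul] at e3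
    simp only [map_div₀, e2, e3, map_add, map_natCast, map_one]
    push_cast
    field_simp
    ring

lemma rep {τ : F} (hτ : Hom (-1) τ) (hτ' : ∀ r, φ r τ = τ + ι r) {f : F} {n : ℤ} (hf : Hom n f)
    (hr : Rat φ f) : ∃ (A B : F[X]) (b : ℕ),
      (∀ j, (∀ r, φ r (A.coeff j) = A.coeff j) ∧ Hom (n - b + j) (A.coeff j)) ∧
      (∀ j, (∀ r, φ r (B.coeff j) = B.coeff j) ∧ Hom (-b + j) (B.coeff j)) ∧
      f = A.eval τ / B.eval τ := by
  obtain ⟨A, B, -, e1, e2, e3, e4, e5⟩ := key h1 h2 hf hr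
  have h (p : F[X]) (r) (hp : p.map (φ r : F →+* F) = taylor (ι r) p) (j) :
      φ r ((taylor (-τ) p).coeff j) = (taylor (-τ) p).coeff j := by
    have : (taylor (-τ) p).map (φ r : F →+* F) = taylor (-τ) p := by
      rw [map_taylor, hp, taylor_taylor]
      simp [hτ']
    exact (coeff_map _ j).symm.trans (congrArg (·.coeff j) this)
  exact ⟨taylor (-τ) A, taylor (-τ) B, B.natDegree,
    fun j => ⟨fun r => h A r (e1 r).1 j, (e2.taylor hτ).coeff j⟩,
    fun j => ⟨fun r => h B r (e1 r).2 j, (e3.taylor hτ).coeff j⟩,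
    by rw [taylor_eval, taylor_eval, add_neg_cancel, eq_div_iff e4, e5]⟩

omit h1 h2 in
lemma transc {L : Type} [CommRing L] [Algebra L F] [FaithfulSMul L F] {y : F} (g : ℕ → F →ₐ[ℂ] F)
    (h : ∀ k c, g k (algebraMap L F c) = algebraMap L F c)
    (hi : Function.Injective fun k => g k y) : Transcendental L y := by
  rintro ⟨p, hp, h0⟩
  refine (Polynomial.map_ne_zero_iff (FaithfulSMul.algebraMap_injective L F)).2 hp
    (eq_zero_of_infinite_isRoot _ ((Set.infinite_range_of_injective hi).mono ?_))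
  rintro _ ⟨k, rfl⟩
  have := congrArg (g k) h0
  rw [aeval_eq_sum_range] at this
  simpa [eval_map_algebraMap, aeval_eq_sum_range, Algebra.smul_def, h] using this

theorem normal_form (h3 : ∀ i, Rat φ (x i)) (h4 : ∃ i, φ 1 (x i) ≠ x i) :
    ∃ (N : ℕ) (a t τ : F), Hom N a ∧ Hom 0 t ∧ Hom (-1) τ ∧ φ 1 a = a ∧ φ 1 t = t ∧
      φ 1 τ = τ + 1 ∧ IntermediateField.adjoin ℂ {a, t, τ} = ⊤ := by
  obtain ⟨τ, hτ, hτ'⟩ : ∃ τ, Hom (-1) τ ∧ ∀ r, φ r τ = τ + ι r := by
    obtain ⟨i, hi⟩ := h4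
    obtain ⟨A, B, e0, e1, e2, e3, e4, e5⟩ := key h1 h2 (hom_x i) (h3 i)
    rcases Nat.eq_zero_or_pos B.natDegree with hB | hB
    · refine slice (Nat.pos_of_ne_zero fun hA => hi ?_) (fun r => (e1 r).1) e2
      rw [e0.natDegree_eq_zero.1 hB, eq_C_of_natDegree_eq_zero hA] at e5
      have := congrArg (·.coeff 0) (e1 1).1
      rw [eq_C_of_natDegree_eq_zero hA] at this
      simp at e5 this
      rw [e5, this]
    · exact slice hB (fun r => (e1 r).2) e3
  have hτ1 : φ 1 τ = τ + 1 := by simp [hτ', ι]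
  have hτ0 : τ ≠ 0 := fun h => by simp [h] at hτ1
  let D : AddSubgroup ℤ :=
    { carrier := {n | ∃ f ≠ 0, (∀ r, φ r f = f) ∧ Hom n f}
      zero_mem' := ⟨1, one_ne_zero, by simp, fun l => by simp⟩
      add_mem' := fun ⟨f, a, b, c⟩ ⟨g, a', b', c'⟩ =>
        ⟨f * g, mul_ne_zero a a', fun r => by simp [b, b'], c.mul c'⟩
      neg_mem' := fun ⟨f, a, b, c⟩ =>
        ⟨f⁻¹, inv_ne_zero a, fun r => by simp [b], by simpa using c.zpow (-1)⟩ }
  obtain ⟨N, hN⟩ := Int.subgroup_cyclic D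
  have hD (n) : n ∈ D ↔ (N.natAbs : ℤ) ∣ n := by
    rw [hN, AddSubgroup.mem_closure_singleton, Int.natAbs_dvd]
    exact ⟨fun ⟨k, h⟩ => ⟨k, by rw [← h, smul_eq_mul, mul_comm]⟩,
      fun ⟨k, h⟩ => ⟨k, by rw [h, smul_eq_mul, mul_comm]⟩⟩
  generalize N.natAbs = N at hD
  rcases N with _ | N
  · have e1 {c : F} {n : ℤ} (hn : n ≠ 0) (h : (∀ r, φ r c = c) ∧ Hom n c) : c = 0 :=
      by_contra fun h0 => hn (by simpa using (hD n).1 ⟨c, h0, h⟩)
    have e2 (i) : Hom 0 (x i / x 2) := by simpa using (hom_x i).div (hom_x 2)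
    have e3 (i) : φ 1 (x i / x 2) = x i / x 2 := by
      obtain ⟨A, B, b, a1, a2, a3⟩ := rep h1 h2 hτ hτ' (e2 i) ((h3 i).div (h3 2) (x_ne 2))
      have a4 : A = monomial b (A.coeff b) := Polynomial.ext fun j => by
        rw [coeff_monomial]
        split_ifs with h
        exacts [h ▸ rfl, e1 (by omega) (a1 j)]
      have a5 : B = monomial b (B.coeff b) := Polynomial.ext fun j => by
        rw [coeff_monomial]
        split_ifs with h
        exacts [h ▸ rfl, e1 (by omega) (a2 j)]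
      rw [a3, a4, a5, eval_monomial, eval_monomial, mul_div_mul_right _ _ (pow_ne_zero _ hτ0),
        map_div₀, (a1 b).1, (a2 b).1]
    refine ⟨0, _, _, τ, e2 0, e2 1, hτ, e3 0, e3 1, hτ1, top_of_x fun i => ?_⟩
    rw [← mul_div_cancel_right₀ (x i) hτ0]
    exact div_mem (IntermediateField.adjoin.mono _ _ _ (by intro y; simp; tauto)
      (deg0 (by simpa using (hom_x i).mul hτ))) (IntermediateField.subset_adjoin _ _ (by simp))
  · obtain ⟨a, a0, a1, a2⟩ := (hD _).2 dvd_rfl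
    let F0 : IntermediateField ℂ F := Subfield.toIntermediateField
      (⨅ r, RingHom.eqLocusField (φ r : F →+* F) (RingHom.id F)) fun c => by simp
    let K : IntermediateField ℂ F := F0 ⊓ Subfield.toIntermediateField
      (⨅ r, RingHom.eqLocusField (δ r : F →+* F) (RingHom.id F)) fun c => by simp
    have hF (f) : f ∈ F0 ↔ ∀ r, φ r f = f := by simp [F0, ← IntermediateField.mem_toSubfield]
    have hK (f) : f ∈ K ↔ (∀ r, φ r f = f) ∧ Hom 0 f := by
      simp [K, hF, Hom, ← IntermediateField.mem_toSubfield]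
    let F1 := IntermediateField.extendScalars (show K ≤ F0 from inf_le_left)
    have t1 : Algebra.Transcendental F1 F := ⟨τ, transc (fun k => φ (u k))
      (fun k c => (hF c).1 c.2 _) fun k k' h => by simpa [hτ', hu] using h⟩
    have t2 : Algebra.Transcendental K F1 := ⟨⟨a, (hF a).2 a1⟩, fun h => transc (fun k => δ (u k))
      (fun k c => by simpa using ((hK c).1 c.2).2 _) (fun k k' h => by
        change δ _ a = δ _ a at h
        simp only [a2 _, hu, zpow_natCast, ← Nat.cast_pow] at h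
        exact Nat.succ_injective (Nat.pow_left_injective N.succ_ne_zero
          (Nat.cast_injective (mul_right_cancel₀ a0 h)))) (h.algebraMap (A := F))⟩
    have t3 := trdeg_F
    rw [← trdeg_add_eq ℂ K (A := F), ← trdeg_add_eq K F1 (A := F)] at t3
    obtain ⟨t, ht, ht'⟩ := luroth K (by
      have t4 := add_le_add (le_refl (Algebra.trdeg ℂ K)) (add_le_add
        (Cardinal.one_le_iff_pos.2 (trdeg_pos K F1)) (Cardinal.one_le_iff_pos.2 (trdeg_pos F1 F)))
      rw [t3, show (3 : Cardinal) = 1 + (1 + 1) by norm_num] at t4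
      exact (Cardinal.add_le_add_iff_of_lt_aleph0 (by simp [Cardinal.add_lt_aleph0_iff])).1 t4)
    refine ⟨N + 1, a, t, τ, a2, ((hK t).1 ht).2, hτ, a1 1, ((hK t).1 ht).1 1, hτ1,
      top_of_x fun i => ?_⟩
    have e1 {c : F} {n : ℤ} (h : (∀ r, φ r c = c) ∧ Hom n c) :
        c ∈ IntermediateField.adjoin ℂ {a, t, τ} := by
      by_cases h0 : c = 0
      · exact h0 ▸ zero_mem _
      obtain ⟨k, rfl⟩ := (hD n).1 ⟨c, h0, h⟩
      rw [← div_mul_cancel₀ c (zpow_ne_zero k a0)]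
      exact mul_mem (IntermediateField.adjoin.mono _ _ _ (by simp) (ht' ((hK _).2
        ⟨fun r => by simp [h.1, a1], by simpa using h.2.div (a2.zpow k)⟩)))
        (zpow_mem (IntermediateField.subset_adjoin _ _ (by simp)) k)
    obtain ⟨A, B, b, b1, b2, b3⟩ := rep h1 h2 hτ hτ' (hom_x i) (h3 i)
    have e2 : τ ∈ IntermediateField.adjoin ℂ {a, t, τ} :=
      IntermediateField.subset_adjoin _ _ (by simp)
    rw [b3, eval_eq_sum_range, eval_eq_sum_range]
    exact div_mem (sum_mem fun j _ => mul_mem (e1 (b1 j)) (pow_mem e2 j))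
      (sum_mem fun j _ => mul_mem (e1 (b2 j)) (pow_mem e2 j))

end Pool.Agent.KS6_81.Flow
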