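import Pool.Agent.KS6_81.Flow.B

/-! From the projective translation equation to an action of the affine group. -/

namespace Pool.Agent.KS6_81.Flow

open MvPolynomial

variable (P : Fin 3 → S) (Q : S)

noncomputable def mid {k : Type} [Field k] [Algebra ℂ k] (y : Fin 3 → k) (z : k) : Fin 3 → k :=
  ((1 - z) / z) • rat P Q (z • y)

def Cond {k : Type} [Field k] [Algebra ℂ k] (y : Fin 3 → k) (z : k) : Prop :=
  z ≠ 0 ∧ aeval y Q ≠ 0 ∧ aeval (z • y) Q ≠ 0 ∧ aeval (mid P Q y z) Q ≠ 0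

variable {P Q}

lemma ev_fe {R K k : Type} [CommRing R] [Field K] [Field k] [Algebra ℂ R] [Algebra ℂ K]
    [Algebra ℂ k] [Algebra R K] [IsScalarTower ℂ R K] [IsFractionRing R K] {e : R →ₐ[ℂ] k}
    {Y : Fin 3 → K} {Z : K} {y : Fin 3 → k} {z : k} (h1 : ∀ i, Ev e (Y i) (y i)) (h2 : Ev e Z z)
    (h : Cond P Q y z) (i : Fin 3) : Ev e (((1 - Z) • rat P Q Y) i) (((1 - z) • rat P Q y) i) ∧
      Ev e (rat P Q (mid P Q Y Z) i) (rat P Q (mid P Q y z) i) := by
  have h3 : Ev e (1 - Z) (1 - z) := by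
    simpa [sub_eq_add_neg] using (Ev.alg 1).add ((Ev.alg (-1)).mul h2)
  exact ⟨h3.mul (Ev.rat P h1 h.2.1 i), Ev.rat P (fun j => (h3.div h2 h.1).mul
    (Ev.rat P (g := Z • Y) (c := z • y) (fun l => h2.mul (h1 l)) h.2.2.1 j)) h.2.2.2 i⟩

lemma Ev.X {σ K k : Type} [Field K] [Field k] [Algebra ℂ k] [Algebra (MvPolynomial σ ℂ) K]
    (w : σ → k) (i : σ) : Ev (MvPolynomial.aeval w : MvPolynomial σ ℂ →ₐ[ℂ] k)
      (algebraMap (MvPolynomial σ ℂ) K (MvPolynomial.X i)) (w i) := by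
  simpa using Ev.alg (K := K) (e := (MvPolynomial.aeval w : MvPolynomial σ ℂ →ₐ[ℂ] k))
    (MvPolynomial.X i)

lemma fe (K : Type) [Field K] [Algebra ℂ K] [Algebra (MvPolynomial (Option (Fin 3)) ℂ) K]
    [IsScalarTower ℂ (MvPolynomial (Option (Fin 3)) ℂ) K]
    [IsFractionRing (MvPolynomial (Option (Fin 3)) ℂ) K] {V : Set ((Fin 3 → ℂ) × ℂ)}
    (hV : IsOpen V) (h0 : V.Nonempty)
    (h : ∀ q ∈ V, Cond P Q q.1 q.2 ∧ (1 - q.2) • rat P Q q.1 = rat P Q (mid P Q q.1 q.2))
    {y : Fin 3 → F} {z : F} (hc : Cond P Q y z) : (1 - z) • rat P Q y = rat P Q (mid P Q y z) := by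
  funext i
  let Y : Fin 3 → K := fun i => algebraMap (MvPolynomial (Option (Fin 3)) ℂ) K (X (some i))
  let Z : K := algebraMap (MvPolynomial (Option (Fin 3)) ℂ) K (X none)
  have h1 : ((1 - Z) • rat P Q Y) i = rat P Q (mid P Q Y Z) i := open_zero'
    (U := (fun w : Option (Fin 3) → ℂ => (fun i => w (some i), w none)) ⁻¹' V)
    (hV.preimage (by fun_prop)) (by
      obtain ⟨q, hq⟩ := h0
      exact ⟨fun o => o.elim q.2 q.1, hq⟩) fun w hw => by
      have h2 := ev_fe (e := (aeval w : MvPolynomial (Option (Fin 3)) ℂ →ₐ[ℂ] ℂ)) (Y := Y) (Z := Z)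
        (fun i => Ev.X w (some i)) (Ev.X w none) (h _ hw).1 i
      exact ⟨_, h2.1, (h _ hw).2 ▸ h2.2⟩
  have h2 := ev_fe (e := (aeval fun o => o.elim z y : MvPolynomial (Option (Fin 3)) ℂ →ₐ[ℂ] F))
    (Y := Y) (Z := Z) (fun i => Ev.X _ (some i)) (Ev.X _ none) hc i
  exact h2.1.uniq (h1 ▸ h2.2)

lemma ev_x (p : Fin 3 → ℂ) (i : Fin 3) : Ev (aeval p : S →ₐ[ℂ] ℂ) (x i) (p i) := Ev.X p i

lemma dominant {U : Set (Fin 3 → ℂ)} (hU : IsOpen U) (h0 : U.Nonempty)
    (h : ∀ p ∈ U, Filter.Tendsto (fun z : ℂ => z⁻¹ • rat P Q (z • p))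
      (nhdsWithin (0 : ℂ) {0}ᶜ) (nhds p)) :
    Function.Injective (aeval (rat P Q x) : S →ₐ[ℂ] F) := by
  classical
  rw [injective_iff_map_eq_zero]
  intro H hH
  by_contra hH0
  have h1 (p : Fin 3 → ℂ) : eval (rat P Q p) (X 0 * H) = 0 := by
    by_cases hp : aeval p Q = 0
    · simp [rat, hp]
    · have h1 := Ev.aeval (Ev.rat P (ev_x p) hp) H
      rw [hH] at h1
      rw [map_mul, show eval (rat P Q p) H = 0 from
        h1.uniq (by simpa using Ev.alg (K := F) (e := (aeval p : S →ₐ[ℂ] ℂ)) 0), mul_zero]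
  have h2 := mul_ne_zero (X_ne_zero (0 : Fin 3)) hH0
  generalize X 0 * H = G at h1 h2
  obtain ⟨μ, h3, h4⟩ := G.support.exists_min_image Finsupp.degree (support_nonempty.2 h2)
  have h5 : homogeneousComponent μ.degree G = 0 := open_zero hU h0 fun p hp => by
    let T (q : ℂ × (Fin 3 → ℂ)) : ℂ :=
      ∑ ν ∈ G.support, coeff ν G * q.1 ^ (ν.degree - μ.degree) * ∏ i, q.2 i ^ ν i
    have e1 : Continuous T := by fun_prop
    have e2 := (e1.tendsto (0, p)).comp
      ((tendsto_nhdsWithin_of_tendsto_nhds Filter.tendsto_id).prodMk_nhds (h p hp))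
    have e3 : T (0, p) = 0 := tendsto_nhds_unique_of_eventuallyEq e2 tendsto_const_nhds
      (eventually_nhdsWithin_of_forall fun z hz => by
        have e3 := h1 (z • p)
        rw [← smul_inv_smul₀ hz (rat P Q (z • p)), eval_eq'] at e3
        refine mul_left_cancel₀ (pow_ne_zero μ.degree hz) ?_
        rw [mul_zero, ← e3]
        simp only [T, Function.comp, id, Finset.mul_sum]
        refine Finset.sum_congr rfl fun ν hν => ?_
        obtain ⟨c, hc⟩ := Nat.exists_eq_add_of_le (h4 ν hν)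
        generalize z⁻¹ • rat P Q (z • p) = w
        simp only [Pi.smul_apply, smul_eq_mul, mul_pow, Finset.prod_mul_distrib,
          Finset.prod_pow_eq_pow_sum, ← Finsupp.degree_eq_sum, hc, Nat.add_sub_cancel_left]
        ring)
    rw [homogeneousComponent_apply, map_sum, Finset.sum_filter]
    refine (Finset.sum_congr rfl fun ν hν => ?_).trans e3
    split_ifs with e4
    · simp [e4, eval_monomial, Finsupp.prod_fintype]
    · simp [Nat.sub_ne_zero_of_lt (lt_of_le_of_ne (h4 ν hν) (Ne.symm e4))]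
  have h6 := congrArg (coeff μ) h5
  rw [coeff_homogeneousComponent, if_pos rfl] at h6
  exact mem_support_iff.1 h3 h6

lemma exists_rat (g : Fin 3 → F) : ∃ (L : Fin 3 → S) (E : S), E ≠ 0 ∧ rat L E x = g := by
  obtain ⟨b, hb⟩ := IsLocalization.exist_integer_multiples_of_finite (nonZeroDivisors S) g
  choose L hL using hb
  refine ⟨L, b, nonZeroDivisors.ne_zero b.2, funext fun i => ?_⟩
  rw [rat, aeval_x, aeval_x, hL, Algebra.smul_def,
    mul_div_cancel_left₀ _ (IsFractionRing.to_map_ne_zero_of_mem_nonZeroDivisors b.2)]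

noncomputable def ψ {k : Type} [Field k] (N : ℕ) (y : Fin 3 → k) : Fin 3 → k :=
  ![y 0 * (y 2 + 1) ^ ((N : ℤ) - 1), y 1 / (y 2 + 1), y 2 / (y 2 + 1)]

theorem conj (hQ : Q ≠ 0) (hne : ¬∀ i, P i = X i * Q)
    (hd : Function.Injective (aeval (rat P Q x) : S →ₐ[ℂ] F))
    (hfe : ∀ (y : Fin 3 → F) (z : F), Cond P Q y z → (1 - z) • rat P Q y = rat P Q (mid P Q y z)) :
    ∃ (N : ℕ) (m : F ≃ₐ[ℂ] F), (∀ i, Hom 1 (m (x i))) ∧
      ∀ i, mk _ hd (m (x i)) = m (ψ N x i) := by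
  let φ (r : ℂˣ) : F →ₐ[ℂ] F := (δ r).comp ((mk _ hd).comp (δ r⁻¹))
  have hι (r : ℂˣ) : ι r⁻¹ = (ι r)⁻¹ := by simp [ι]
  have hQ' : algebraMap S F Q ≠ 0 := by simpa using hQ
  have e0 (r : ℂˣ) : aeval (ι r • x) Q = δ r (algebraMap S F Q) := by
    rw [hom_alg]; simp only [δ_x]; rfl
  have e1 (r i) : φ r (x i) = (ι r)⁻¹ * rat P Q (ι r • x) i := by
    simp only [φ, AlgHom.comp_apply, δ_x, map_mul, map_ι, mk_x, map_rat, hι, map_inv₀]
    rfl
  obtain ⟨N, a, t, τ, a1, a2, a3, a4, a5, a6, a7⟩ := normal_form (φ := φ)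
    (fun r s t h f => by
      refine DFunLike.congr_fun (show (φ r).comp (φ s) = φ t from hom_ext fun i => ?_) f
      have h1 : ι t = ι r + ι s := by simp [ι, h]
      have h2 : (ι r / ι t) • ι t • x = ι r • x := by rw [smul_smul, div_mul_cancel₀ _ (ι_ne t)]
      have h3 : 1 - ι r / ι t = ι s / ι t := by
        rw [one_sub_div (ι_ne t), h1, add_sub_cancel_left]
      have h4 : mid P Q (ι t • x) (ι r / ι t) = fun j => φ r ((ι s • x) j) := funext fun j => by
        rw [mid, h2, h3, div_div_div_cancel_right₀ (ι_ne t), Pi.smul_apply, Pi.smul_apply,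
          smul_eq_mul, smul_eq_mul, map_mul, map_ι, e1, div_eq_mul_inv, mul_assoc]
      have h5 := congrFun (hfe (ι t • x) (ι r / ι t) ⟨div_ne_zero (ι_ne r) (ι_ne t),
        by simpa [e0] using hQ, by simpa [h2, e0] using hQ,
        by rw [h4, ← comp_aeval_apply, e0]; simpa using hQ⟩) i
      rw [AlgHom.comp_apply, e1, e1, map_mul, map_inv₀, map_ι, map_rat, ← h4, ← h5, h3,
        Pi.smul_apply, smul_eq_mul, ← mul_assoc, div_eq_mul_inv, inv_mul_cancel_left₀ (ι_ne s)])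
    (fun l s f => by simp [φ, δ_δ])
    (fun i => by
      have h1 (p : S) (y : F) : (aeval (fun i => Polynomial.C (x i) * Polynomial.X) p :
          Polynomial F).eval y = aeval (y • x) p := by
        induction p using MvPolynomial.induction_on with
        | C a => simp
        | add p q hp hq => simp [hp, hq]
        | mul_X p i hp => simp [hp, mul_comm y]
      refine ⟨aeval (fun i => Polynomial.C (x i) * Polynomial.X) (P i),
        Polynomial.X * aeval (fun i => Polynomial.C (x i) * Polynomial.X) Q,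
        mul_ne_zero Polynomial.X_ne_zero fun h => hQ' (by simpa [h, aeval_x] using (h1 Q 1).symm),
        fun r => ?_⟩
      have h2 : aeval (ι r • x) Q ≠ 0 := by simpa [e0] using hQ
      rw [e1, Polynomial.eval_mul, h1, h1, Polynomial.eval_X, rat]
      field_simp [ι_ne r])
    (by
      by_contra! h
      refine hne fun i => IsFractionRing.injective S F ?_
      have h1 := h i
      rw [e1, show ι 1 = 1 by simp [ι], one_smul, inv_one, one_mul, rat, aeval_x, aeval_x,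
        div_eq_iff hQ'] at h1
      rw [h1, map_mul, x])
  have e2 : φ 1 = mk _ hd := AlgHom.ext fun f => by simp [φ, δ_one]
  rw [e2] at a4 a5 a6
  have hτ : τ ≠ 0 := fun h => by simp [h] at a6
  have hτ1 : τ + 1 ≠ 0 := a6 ▸ (map_ne_zero _).2 hτ
  let y : Fin 3 → F := ![a * τ ^ ((N : ℤ) - 1), t / τ, 1 / τ]
  have e3 : IntermediateField.adjoin ℂ (Set.range y) = ⊤ := by
    have h (i) : y i ∈ IntermediateField.adjoin ℂ (Set.range y) :=
      IntermediateField.subset_adjoin _ _ ⟨i, rfl⟩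
    have h2 : τ ∈ IntermediateField.adjoin ℂ (Set.range y) := by simpa [y] using inv_mem (h 2)
    rw [eq_top_iff, ← a7, IntermediateField.adjoin_le_iff]
    rintro _ (rfl | rfl | rfl)
    · simpa [y, zpow_ne_zero _ hτ] using div_mem (h 0) (zpow_mem h2 ((N : ℤ) - 1))
    · simpa [y, hτ] using mul_mem (h 1) h2
    · exact h2
  have e4 : Algebra.IsAlgebraic (Algebra.adjoin ℂ (Set.range y)) F :=
    IntermediateField.isAlgebraic_adjoin_iff_top.1 ⟨fun f => isAlgebraic_algebraMap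
      (⟨f, e3 ▸ IntermediateField.mem_top⟩ : IntermediateField.adjoin ℂ (Set.range y))⟩
  have e5 : Function.Injective (aeval y : S →ₐ[ℂ] F) :=
    (Algebra.IsAlgebraic.isTranscendenceBasis_of_le_trdeg_of_finite ℂ y (by simp [trdeg_F])).1
  have e6 : (mk y e5).fieldRange = ⊤ := by
    rw [eq_top_iff, ← e3, IntermediateField.adjoin_le_iff]
    rintro _ ⟨i, rfl⟩
    exact ⟨x i, mk_x _ _ i⟩
  have e7 : Function.Bijective (mk y e5) := ⟨(mk y e5).injective, AlgHom.fieldRange_eq_top.1 e6⟩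
  refine ⟨N, AlgEquiv.ofBijective (mk y e5) e7, fun i => ?_, fun i => ?_⟩
  · rw [AlgEquiv.ofBijective_apply, mk_x]
    fin_cases i
    · simpa [y] using a1.mul (a3.zpow ((N : ℤ) - 1))
    · simpa [y] using a2.div a3
    · simpa [y] using a3.zpow (-1)
  · have h : τ⁻¹ + 1 = (τ + 1) / τ := by field_simp; ring
    fin_cases i <;> simp [ψ, mk_x, y, a4, a5, a6, h, div_zpow] <;> field_simp

end Pool.Agent.KS6_81.Flow
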