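import Pool.Agent.KS6_81.Flow.C

/-! The number `N` of the normal form is determined by the flow. -/

namespace Pool.Agent.KS6_81.Flow

section

open Polynomial

/-- clearing denominators along the flow -/
lemma clear (N : ℕ) (p : S) : ∃ (D : ℕ) (A : F[X]), ∀ u : F, u ≠ 0 → A.eval u =
    u ^ D * MvPolynomial.aeval ![x 0 * u ^ ((N : ℤ) - 1), x 1 / u, x 2 / u] p := by
  induction p using MvPolynomial.induction_on with
  | C a => exact ⟨0, C (algebraMap ℂ F a), fun u _ => by simp⟩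
  | add p q hp hq =>
    obtain ⟨D, A, h⟩ := hp
    obtain ⟨D', A', h'⟩ := hq
    exact ⟨D + D', X ^ D' * A + X ^ D * A', fun u hu => by
      simp only [eval_add, eval_mul, eval_pow, eval_X, h u hu, h' u hu, map_add]; ring⟩
  | mul_X p i hp =>
    obtain ⟨D, A, h⟩ := hp
    fin_cases i
    · refine ⟨D + 1, A * C (x 0) * X ^ N, fun u hu => ?_⟩
      have e : u ^ N = u * u ^ ((N : ℤ) - 1) := by
        rw [zpow_sub₀ hu, zpow_natCast, zpow_one]; field_simp
      simp only [eval_mul, eval_pow, eval_X, eval_C, h u hu, map_mul, MvPolynomial.aeval_X, e]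
      simp; ring
    · refine ⟨D + 1, A * C (x 1), fun u hu => ?_⟩
      simp only [eval_mul, eval_C, h u hu, map_mul, MvPolynomial.aeval_X]
      simp; field_simp; ring
    · refine ⟨D + 1, A * C (x 2), fun u hu => ?_⟩
      simp only [eval_mul, eval_C, h u hu, map_mul, MvPolynomial.aeval_X]
      simp; field_simp; ring

lemma inv_root {N M : ℕ} {h : F →ₐ[ℂ] F} (hh : ∀ i, h (x i) = ψ N x i) {g : F} (g0 : g ≠ 0)
    (hg : Hom M g) (hi : h g = g) (ζ : ℂˣ) (hζ : ζ ^ N = 1) : ζ ^ M = 1 := by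
  obtain ⟨a, b, hb, e⟩ := IsFractionRing.div_surjective (A := S) g
  have hb' := IsFractionRing.to_map_ne_zero_of_mem_nonZeroDivisors (K := F) hb
  obtain ⟨D, A, hA⟩ := clear N a
  obtain ⟨D', B, hB⟩ := clear N b
  let φ (r : ℂˣ) : F →ₐ[ℂ] F := (δ r).comp (h.comp (δ r⁻¹))
  have u0 (r : ℂˣ) : ι r * x 2 + 1 ≠ 0 := by
    intro k
    have e1 : algebraMap S F (MvPolynomial.C (r : ℂ) * MvPolynomial.X 2 + 1) = 0 := by
      simpa [x, alg_C, ι] using k
    have e2 := (map_eq_zero_iff _ (IsFractionRing.injective S F)).1 e1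
    simpa using congrArg MvPolynomial.constantCoeff e2
  have hφ (r : ℂˣ) : φ r g = g := by
    simp only [φ, AlgHom.comp_apply, hg r⁻¹, map_mul, map_zpow₀, map_ι, hi, hg r]
    rw [← mul_assoc, ← mul_zpow, ← ι_mul, inv_mul_cancel]
    simp [ι]
  have hφx (r : ℂˣ) : (fun i => φ r (x i)) = ![x 0 * (ι r * x 2 + 1) ^ ((N : ℤ) - 1),
      x 1 / (ι r * x 2 + 1), x 2 / (ι r * x 2 + 1)] := by
    have k : ι r⁻¹ * ι r = 1 := by rw [← ι_mul, inv_mul_cancel]; simp [ι]
    funext i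
    simp only [φ, AlgHom.comp_apply, δ_x, map_mul, map_ι, hh]
    fin_cases i
    · simp only [ψ]
      simp only [Fin.zero_eta, Matrix.cons_val_zero, map_mul, map_zpow₀, map_add, map_one, δ_x]
      rw [← mul_assoc, ← mul_assoc, k, one_mul]
    · simp only [ψ]
      simp only [Fin.mk_one, Matrix.cons_val_one, Matrix.cons_val_zero, map_div₀, map_add,
        map_one, δ_x]
      rw [mul_div_assoc', ← mul_assoc, k, one_mul]
    · simp only [ψ]
      simp only [Fin.reduceFinMk, Matrix.cons_val, map_div₀, map_add, map_one, δ_x]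
      rw [mul_div_assoc', ← mul_assoc, k, one_mul]
  have key : C g * B * X ^ D = A * X ^ D' := by
    refine Polynomial.eq_of_infinite_eval_eq _ _ ((Set.infinite_range_of_injective
      (f := fun k => ι (u k) * x 2 + 1) fun l s e => ?_).mono ?_)
    · have := mul_right_cancel₀ (x_ne 2) (add_right_cancel e)
      simpa [hu] using this
    · rintro _ ⟨k, rfl⟩
      have e1 := hφ (u k)
      rw [← e, map_div₀, hom_alg, hom_alg, hφx, e, div_eq_iff (by
        rw [← hφx, ← hom_alg]; exact (_root_.map_ne_zero _).2 hb')] at e1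
      simp only [Set.mem_ofPred_eq, eval_mul, eval_C, eval_pow, eval_X, hA _ (u0 _), hB _ (u0 _),
        e1]
      ring
  have e2 := congrArg (eval (ι ζ)) key
  simp only [eval_mul, eval_C, eval_pow, eval_X, hA _ (ι_ne ζ), hB _ (ι_ne ζ)] at e2
  have e3 : (![x 0 * ι ζ ^ ((N : ℤ) - 1), x 1 / ι ζ, x 2 / ι ζ] : Fin 3 → F) =
      fun i => δ ζ⁻¹ (x i) := by
    have k : ι ζ⁻¹ = (ι ζ)⁻¹ := by simp [ι]
    have k2 : ι ζ ^ N = 1 := by
      have := congrArg ι hζ
      simpa [ι] using this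
    funext i
    fin_cases i
    · simp [δ_x, k, zpow_sub₀ (ι_ne ζ), k2, mul_comm]
    · simp [δ_x, k, div_eq_inv_mul]
    · simp [δ_x, k, div_eq_inv_mul]
  rw [e3, ← hom_alg, ← hom_alg] at e2
  have e4 : g * δ ζ⁻¹ (algebraMap S F b) = δ ζ⁻¹ (algebraMap S F a) := by
    have h1 : ι ζ ^ D' * ι ζ ^ D ≠ 0 := mul_ne_zero (pow_ne_zero _ (ι_ne ζ)) (pow_ne_zero _ (ι_ne ζ))
    exact mul_left_cancel₀ h1 (by linear_combination e2)
  have e5 : δ ζ⁻¹ g = g := by
    rw [← e, map_div₀, ← e4, e, mul_div_assoc, div_self ((_root_.map_ne_zero _).2 hb'), mul_one]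
  rw [hg ζ⁻¹] at e5
  have e6 : ι ζ⁻¹ ^ (M : ℤ) = 1 := mul_right_cancel₀ g0 (by rw [e5, one_mul])
  have e7 : (algebraMap ℂ F) (((ζ⁻¹ : ℂˣ) : ℂ) ^ M) = algebraMap ℂ F 1 := by
    rw [map_pow, map_one]
    simpa [ι] using e6
  have e8 := (algebraMap ℂ F).injective e7
  have e9 : (ζ⁻¹ : ℂˣ) ^ M = 1 := Units.ext (by simpa using e8)
  rwa [inv_pow, inv_eq_one] at e9

lemma dvd_of_root {N M : ℕ} (h : ∀ ζ : ℂˣ, ζ ^ N = 1 → ζ ^ M = 1) : N ∣ M := by
  rcases Nat.eq_zero_or_pos N with rfl | hN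
  · have h1 := h (Units.mk0 2 two_ne_zero) (pow_zero _)
    have h2 : (2 : ℂ) ^ M = 1 := by simpa using congrArg Units.val h1
    have h3 : (2 : ℕ) ^ M = 1 := by exact_mod_cast h2
    rcases Nat.pow_eq_one.1 h3 with h4 | h4
    · omega
    · simp [h4]
  · have hp := Complex.isPrimitiveRoot_exp N hN.ne'
    have h1 := h (Units.mk0 _ (Complex.exp_ne_zero (2 * Real.pi * Complex.I / N)))
      (Units.ext (by simpa using hp.pow_eq_one))
    exact hp.dvd_of_pow_eq_one M (by simpa using congrArg Units.val h1)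

lemma comm_δ {l : F ≃ₐ[ℂ] F} (hl : ∀ i, Hom 1 (l (x i))) (z : ℂˣ) (f : F) :
    δ z (l f) = l (δ z f) :=
  DFunLike.congr_fun (show (δ z).comp l.toAlgHom = l.toAlgHom.comp (δ z) from hom_ext fun i => by
    have h1 : l (ι z) = ι z := map_ι l.toAlgHom z
    simpa [δ_x, h1] using hl i z) f

lemma dvd_field {Φ : F →ₐ[ℂ] F} {N N' : ℕ} {l l' : F ≃ₐ[ℂ] F} {h h' : F →ₐ[ℂ] F}
    (hh : ∀ i, h (x i) = ψ N x i) (hh' : ∀ i, h' (x i) = ψ N' x i)
    (hl : ∀ i, Hom 1 (l (x i))) (hl' : ∀ i, Hom 1 (l' (x i)))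
    (c : ∀ f, l (Φ f) = h (l f)) (c' : ∀ f, l' (Φ f) = h' (l' f)) : N ∣ N' := by
  let k : F → F := fun f => l (l'.symm f)
  have h1 : ∀ f, h (k f) = k (h' f) := fun f => by
    simp only [k]
    rw [← c, ← l'.apply_symm_apply (h' f)]
    congr 1
    have := c' (l'.symm f)
    rw [l'.apply_symm_apply] at this
    rw [← this]
    simp
  have h2 : ∀ z f, δ z (k f) = k (δ z f) := fun z f => by
    simp only [k]
    rw [comm_δ hl]
    congr 1
    refine l'.injective ?_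
    rw [← comm_δ hl', l'.apply_symm_apply, l'.apply_symm_apply]
  let a : F := x 0 * x 2 ^ ((N' : ℤ) - 1)
  have a0 : a ≠ 0 := mul_ne_zero (x_ne 0) (zpow_ne_zero _ (x_ne 2))
  have a1 : h' a = a := by
    have e4 : x 2 + 1 ≠ 0 := by
      have : (MvPolynomial.X 2 + 1 : S) ≠ 0 := fun h => by
        simpa using congrArg MvPolynomial.constantCoeff h
      simpa [x] using (map_ne_zero_iff _ (IsFractionRing.injective S F)).2 this
    simp only [a, map_mul, map_zpow₀, hh', ψ]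
    simp only [Matrix.cons_val_zero, Matrix.cons_val, div_zpow]
    rw [mul_assoc, mul_div_cancel₀ _ (zpow_ne_zero _ e4)]
  have a2 : Hom N' a := by
    have := (hom_x 0).mul ((hom_x 2).zpow ((N' : ℤ) - 1))
    simpa using this
  refine dvd_of_root fun ζ hζ => inv_root hh (g := k a) ?_ ?_ ?_ ζ hζ
  · simpa [k] using a0
  · intro z
    rw [h2, a2 z]
    simp only [k, map_mul, map_zpow₀]
    rw [show l'.symm (ι z) = ι z from map_ι l'.symm.toAlgHom z,
      show l (ι z) = ι z from map_ι l.toAlgHom z]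
  · rw [h1, a1]

end

open MvPolynomial

lemma inj_of {L M : Fin 3 → S} {E G : S}
    (c : ∃ U : Set (Fin 3 → ℂ), IsOpen U ∧ U.Nonempty ∧ ∀ p ∈ U,
      eval p G ≠ 0 ∧ eval (rat M G p) E ≠ 0 ∧ rat L E (rat M G p) = p) :
    Function.Injective (aeval (rat L E x) : S →ₐ[ℂ] F) := by
  rw [injective_iff_map_eq_zero]
  intro H hH
  obtain ⟨U, u1, u2, u3⟩ := c
  refine open_zero u1 u2 fun p hp => ?_
  obtain ⟨h1, h2, h3⟩ := u3 p hp
  have h4 := Ev.aeval (Ev.rat L (ev_x (rat M G p)) h2) H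
  rw [hH, h3] at h4
  exact h4.uniq (by
    simpa using Ev.alg (K := F) (e := (aeval (rat M G p) : S →ₐ[ℂ] ℂ)) 0)

lemma left_inv {L M : Fin 3 → S} {E G : S}
    (c : ∃ U : Set (Fin 3 → ℂ), IsOpen U ∧ U.Nonempty ∧ ∀ p ∈ U,
      eval p E ≠ 0 ∧ eval (rat L E p) G ≠ 0 ∧ rat M G (rat L E p) = p) :
    rat M G (rat L E x) = x := by
  obtain ⟨U, u1, u2, u3⟩ := c
  funext i
  refine open_zero' (K := F) u1 u2 fun p hp => ?_
  obtain ⟨h1, h2, h3⟩ := u3 p hp
  refine ⟨p i, ?_, ev_x p i⟩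
  have := Ev.rat M (Ev.rat L (ev_x p) h1) h2 i
  rwa [h3] at this

lemma hom_of {L : Fin 3 → S} {E : S} (hE : E ≠ 0)
    (c : ∃ V : Set ((Fin 3 → ℂ) × ℂ), IsOpen V ∧ V.Nonempty ∧ ∀ q ∈ V,
      eval q.1 E ≠ 0 ∧ eval (q.2 • q.1) E ≠ 0 ∧ rat L E (q.2 • q.1) = q.2 • rat L E q.1)
    (i : Fin 3) : Hom 1 (rat L E x i) := by
  obtain ⟨V, v1, v2, v3⟩ := c
  let sc : S →ₐ[ℂ] MvPolynomial (Option (Fin 3)) ℂ := aeval fun j => X none * X (some j)
  let rn : S →ₐ[ℂ] MvPolynomial (Option (Fin 3)) ℂ := aeval fun j => X (some j)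
  have key : sc (L i) * rn E - X none * rn (L i) * sc E = 0 := by
    refine open_zero (U := (fun w : Option (Fin 3) → ℂ => (fun i => w (some i), w none)) ⁻¹' V)
      (v1.preimage (by fun_prop)) ?_ fun w hw => ?_
    · obtain ⟨q, hq⟩ := v2
      exact ⟨fun o => o.elim q.2 q.1, hq⟩
    · obtain ⟨h1, h2, h3⟩ := v3 _ hw
      have e1 : ∀ p : S, eval w (sc p) = eval (w none • fun j => w (some j)) p := fun p =>
        DFunLike.congr_fun (show (aeval w : MvPolynomial (Option (Fin 3)) ℂ →ₐ[ℂ] ℂ).comp sc =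
          aeval (w none • fun j => w (some j)) from algHom_ext fun j => by simp [sc]) p
      have e2 : ∀ p : S, eval w (rn p) = eval (fun j => w (some j)) p := fun p =>
        DFunLike.congr_fun (show (aeval w : MvPolynomial (Option (Fin 3)) ℂ →ₐ[ℂ] ℂ).comp rn =
          aeval (fun j => w (some j)) from algHom_ext fun j => by simp [rn]) p
      have h4 := congrFun h3 i
      simp only [rat, Pi.smul_apply, smul_eq_mul] at h4
      simp only [map_sub, map_mul, eval_X, e1, e2]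
      change eval (w none • fun j => w (some j)) (L i) /
        eval (w none • fun j => w (some j)) E = w none * (eval (fun j => w (some j)) (L i) /
        eval (fun j => w (some j)) E) at h4
      change eval (fun j => w (some j)) E ≠ 0 at h1
      change eval (w none • fun j => w (some j)) E ≠ 0 at h2
      rw [mul_div_assoc', div_eq_div_iff h2 h1] at h4
      rw [h4, sub_self]
  intro z
  have e1 : ∀ p : S, (aeval fun o : Option (Fin 3) => o.elim (ι z) x) (sc p) =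
      δ z (algebraMap S F p) := fun p => by
    rw [hom_alg]
    exact DFunLike.congr_fun (show (aeval (fun o : Option (Fin 3) => o.elim (ι z) x) :
      MvPolynomial (Option (Fin 3)) ℂ →ₐ[ℂ] F).comp sc = aeval (fun i => δ z (x i)) from
        algHom_ext fun j => by simp [sc, δ_x]) p
  have e2 : ∀ p : S, (aeval fun o : Option (Fin 3) => o.elim (ι z) x) (rn p) =
      algebraMap S F p := fun p => by
    rw [← aeval_x]
    exact DFunLike.congr_fun (show (aeval (fun o : Option (Fin 3) => o.elim (ι z) x) :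
      MvPolynomial (Option (Fin 3)) ℂ →ₐ[ℂ] F).comp rn = aeval x from
        algHom_ext fun j => by simp [rn]) p
  have h5 := congrArg (aeval fun o : Option (Fin 3) => o.elim (ι z) x) key
  simp only [map_sub, map_mul, aeval_X, e1, e2, map_zero, Option.elim_none] at h5
  have hE' : algebraMap S F E ≠ 0 := by simpa using hE
  have hE2 : δ z (algebraMap S F E) ≠ 0 := (_root_.map_ne_zero _).2 hE'
  simp only [rat, aeval_x, map_div₀, zpow_one]
  rw [mul_div_assoc', div_eq_div_iff hE2 hE']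
  exact sub_eq_zero.1 h5

lemma data_field {P L M : Fin 3 → S} {Q E G : S} {N : ℕ}
    (hd : Function.Injective (aeval (rat P Q x) : S →ₐ[ℂ] F)) (hE : E ≠ 0) (hG : G ≠ 0)
    (c1 : ∃ U : Set (Fin 3 → ℂ), IsOpen U ∧ U.Nonempty ∧ ∀ p ∈ U,
      eval p E ≠ 0 ∧ eval (rat L E p) G ≠ 0 ∧ rat M G (rat L E p) = p)
    (c2 : ∃ U : Set (Fin 3 → ℂ), IsOpen U ∧ U.Nonempty ∧ ∀ p ∈ U,
      eval p G ≠ 0 ∧ eval (rat M G p) E ≠ 0 ∧ rat L E (rat M G p) = p)
    (c3 : ∃ V : Set ((Fin 3 → ℂ) × ℂ), IsOpen V ∧ V.Nonempty ∧ ∀ q ∈ V,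
      eval q.1 E ≠ 0 ∧ eval (q.2 • q.1) E ≠ 0 ∧ rat L E (q.2 • q.1) = q.2 • rat L E q.1)
    (c4 : ∃ U : Set (Fin 3 → ℂ), IsOpen U ∧ U.Nonempty ∧ ∀ p ∈ U,
      p 2 + 1 ≠ 0 ∧ eval p E ≠ 0 ∧ eval (rat L E p) Q ≠ 0 ∧ eval (ψ N p) E ≠ 0 ∧
      rat P Q (rat L E p) = rat L E (ψ N p)) :
    ∃ (l : F ≃ₐ[ℂ] F) (h : F →ₐ[ℂ] F), (∀ i, h (x i) = ψ N x i) ∧ (∀ i, Hom 1 (l (x i))) ∧
      ∀ f, l (mk _ hd f) = h (l f) := by
  have i1 := inj_of c2
  have i2 := inj_of c1
  have j1 := left_inv c1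
  have j2 := left_inv c2
  let l : F ≃ₐ[ℂ] F := AlgEquiv.ofAlgHom (mk _ i1) (mk _ i2)
    (hom_ext fun i => by
      rw [AlgHom.comp_apply, mk_x, map_rat]
      simp only [mk_x]
      exact congrFun j1 i)
    (hom_ext fun i => by
      rw [AlgHom.comp_apply, mk_x, map_rat]
      simp only [mk_x]
      exact congrFun j2 i)
  have lx : ∀ i, l (x i) = rat L E x i := fun i => mk_x _ i1 i
  have lsx : ∀ i, l.symm (x i) = rat M G x i := fun i => mk_x _ i2 i
  obtain ⟨U, u1, u2, u3⟩ := c4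
  have b0 (p : Fin 3 → ℂ) : Ev (aeval p : S →ₐ[ℂ] ℂ) (x 2 + 1) (p 2 + 1) := by
    simpa using (ev_x p 2).add (Ev.alg 1)
  have b5 (p : Fin 3 → ℂ) (b1 : p 2 + 1 ≠ 0) (i) :
      Ev (aeval p : S →ₐ[ℂ] ℂ) (ψ N x i) (ψ N p i) := by
    fin_cases i
    exacts [(ev_x p 0).mul ((b0 p).zpow b1 _), (ev_x p 1).div (b0 p) b1,
      (ev_x p 2).div (b0 p) b1]
  have k1 : ∀ i, rat P Q (rat L E x) i = rat L E (ψ N x) i := fun i =>
    open_zero' (K := F) u1 u2 fun p hp => by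
      obtain ⟨h1, h2, h3, h4, h5⟩ := u3 p hp
      exact ⟨_, Ev.rat P (Ev.rat L (ev_x p) h2) h3 i, h5 ▸ Ev.rat L (b5 p h1) h4 i⟩
  have k2 : aeval (ψ N x) E ≠ 0 := by
    obtain ⟨p, hp⟩ := u2
    obtain ⟨h1, h2, h3, h4, h5⟩ := u3 p hp
    exact (Ev.aeval (b5 p h1) E).ne h4
  have k3 : ∀ i, l (mk _ hd (x i)) = rat L E (ψ N x) i := fun i => by
    rw [mk_x, ← k1 i]
    have := map_rat l.toAlgHom P Q x i
    rw [show (fun j => l.toAlgHom (x j)) = rat L E x from funext lx] at this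
    exact this
  let h : F →ₐ[ℂ] F := l.toAlgHom.comp ((mk _ hd).comp l.symm.toAlgHom)
  have k4 : aeval (rat L E (ψ N x)) G ≠ 0 := by
    have e1 : aeval (rat L E (ψ N x)) G = l (mk _ hd (algebraMap S F G)) := by
      have := hom_alg (l.toAlgHom.comp (mk _ hd)) G
      rw [show (fun i => (l.toAlgHom.comp (mk _ hd)) (x i)) = rat L E (ψ N x) from
        funext k3] at this
      exact this.symm
    rw [e1]
    simpa using hG
  refine ⟨l, h, fun i => ?_, fun i => ?_, fun f => ?_⟩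
  · have e1 : h (x i) = rat M G (rat L E (ψ N x)) i := by
      have e2 : h (x i) = (l.toAlgHom.comp (mk _ hd)) (rat M G x i) := by
        rw [← lsx]; rfl
      rw [e2, map_rat]
      congr 1
      exact funext k3
    rw [e1]
    have e3 := Ev.rat M (Ev.rat L (fun j => Ev.X (K := F) (ψ N x) j) k2) k4 i
    have e4 : (fun j => (algebraMap S F) (X j)) = x := rfl
    have e5 := congrFun j1 i
    have e6 : Ev (aeval (ψ N x) : S →ₐ[ℂ] F) (x i) (ψ N x i) := Ev.X (K := F) (ψ N x) i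
    rw [e4, e5] at e3
    exact e3.uniq e6
  · rw [lx]; exact hom_of hE c3 i
  · simp [h]

end Pool.Agent.KS6_81.Flow
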